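import Pool.Agent.H30.KidD

/-!
The regular `k`-independent set problem is NP-complete on `r`-regular graphs.
-/

namespace Pool.Agent.Results.MP_e81a45_lc.Complete

open Pool.Agent.H38.NP Pool.Agent.H30.Kid

theorem result (k r : ℕ) (hk : 1 ≤ k) (hr : max 3 (k + 1) ≤ r) :
    NPComplete (lang (RegMIS k r)) := main hk hr

end Pool.Agent.Results.MP_e81a45_lc.Complete
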